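import Pool.Agent.W418.LU2.Ind

/-!
Project ND of helper75: regular parameters of polynomial rings over Dedekind domains by the Jacobian
criterion; the file `Pool/Agent/K3h66/TO/Ind.lean` for an arbitrary finite set of variables.
-/

set_option autoImplicit false

namespace Pool.Agent.K3h35.ND

open Pool.Agent.W418.LU2 MvPolynomial IsLocalRing

lemma exists_mul {O : Type} [CommRing O] [IsDomain O] [IsDedekindDomain O] (P : Ideal O)
    (π : O) (h1 : π ∈ P) (h2 : π ∉ P ^ 2) :
    ∃ s, s ∉ P ∧ ∀ x ∈ P, s * x ∈ Ideal.span {π} := by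
  have h3 : P ∣ Ideal.span {π} := by
    rw [Ideal.dvd_iff_le, Ideal.span_singleton_le_iff_mem]; exact h1
  obtain ⟨J, hJ⟩ := h3
  have h4 : ¬ J ≤ P := by
    intro h
    apply h2
    have : Ideal.span {π} ≤ P ^ 2 := by
      rw [hJ, pow_two]; exact Ideal.mul_mono_right h
    exact this (Ideal.mem_span_singleton_self π)
  obtain ⟨s, hs, hsP⟩ := SetLike.not_le_iff_exists.1 h4
  refine ⟨s, hsP, fun x hx => ?_⟩
  rw [hJ, mul_comm s x]
  exact Ideal.mul_mem_mul hx hs

lemma pi_notMem {O σ : Type} [CommRing O] [IsDomain O] [IsDedekindDomain O] [Fintype σ]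
    (Q : Ideal (MvPolynomial σ O)) [Q.IsPrime] (P : Ideal O) (hP : P.IsMaximal)
    (hQ : Q.comap (C : O →+* MvPolynomial σ O) = P) (π : O) (h1 : π ∈ P)
    (h2 : π ∉ P ^ 2) :
    algebraMap (MvPolynomial σ O) (Localization.AtPrime Q) (C π) ∉
      maximalIdeal (Localization.AtPrime Q) ^ 2 := by
  classical
  have hfield : IsField (O ⧸ P) := (Ideal.Quotient.maximal_ideal_iff_isField_quotient P).1 hP
  have hdomk : IsDomain (O ⧸ P) := hfield.isDomain
  have hpid : IsPrincipalIdealRing (O ⧸ P) := hfield.isPrincipalIdealRing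
  let φ : MvPolynomial σ O →+* MvPolynomial σ (O ⧸ P) :=
    MvPolynomial.map (Ideal.Quotient.mk P)
  have hφs : Function.Surjective φ := MvPolynomial.map_surjective _ Ideal.Quotient.mk_surjective
  have hker : RingHom.ker φ = P.map (C : O →+* MvPolynomial σ O) := by
    rw [MvPolynomial.ker_map, Ideal.mk_ker]
  have hkQ : RingHom.ker φ ≤ Q := by
    rw [hker, Ideal.map_le_iff_le_comap, hQ]
  let Q' : Ideal (MvPolynomial σ (O ⧸ P)) := Q.map φ
  have hQ'p : Q'.IsPrime := Ideal.map_isPrime_of_surjective hφs hkQ
  have hQQ' : Q = Q'.comap φ := by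
    rw [Ideal.comap_map_of_surjective φ hφs, ← RingHom.ker_eq_comap_bot]
    exact (sup_eq_left.2 hkQ).symm
  let Φ : Localization.AtPrime Q →+* Localization.AtPrime Q' := Localization.localRingHom Q Q' φ hQQ'
  have hreg : IsRegularLocalRing (Localization.AtPrime Q') := inferInstance
  have hregB : IsRegularLocalRing (Localization.AtPrime Q) := inferInstance
  have hΦs : Function.Surjective Φ := by
    intro y
    obtain ⟨b, s, rfl⟩ := IsLocalization.exists_mk'_eq Q'.primeCompl y
    obtain ⟨a, rfl⟩ := hφs b
    obtain ⟨t, ht⟩ := hφs s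
    have htQ : t ∈ Q.primeCompl := by
      intro h
      apply s.2
      rw [← ht]
      exact Ideal.mem_map_of_mem φ h
    refine ⟨IsLocalization.mk' _ a ⟨t, htQ⟩, ?_⟩
    change Localization.localRingHom Q Q' φ hQQ' _ = _
    rw [Localization.localRingHom_mk']
    congr 1
    exact Subtype.ext ht
  have hπ0 : π ≠ 0 := by
    rintro rfl
    exact h2 (Ideal.zero_mem _)
  let π' : Localization.AtPrime Q := algebraMap (MvPolynomial σ O) _ (C π)
  have hπ'0 : π' ≠ 0 := by
    intro h
    have h3 := (IsLocalization.to_map_eq_zero_iff (Localization.AtPrime Q)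
      (M := Q.primeCompl) Q.primeCompl_le_nonZeroDivisors).1 h
    rw [MvPolynomial.C_eq_zero] at h3
    exact hπ0 h3
  have hdom : IsDomain (Localization.AtPrime Q) :=
    IsLocalization.isDomain_of_le_nonZeroDivisors _ Q.primeCompl_le_nonZeroDivisors
  have hπ'k : Φ π' = 0 := by
    change Localization.localRingHom Q Q' φ hQQ' _ = _
    rw [Localization.localRingHom_to_map]
    have h3 : φ (C π) = 0 := by
      have : C π ∈ RingHom.ker φ := by
        rw [hker]
        exact Ideal.mem_map_of_mem _ h1
      exact this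
    rw [h3, map_zero]
  have hdim : ringKrullDim (Localization.AtPrime Q') + 1 ≤ ringKrullDim (Localization.AtPrime Q) :=
    ringKrullDim_succ_le_of_surjective (R := Localization.AtPrime Q)
      (S := Localization.AtPrime Q') Φ hΦs (r := π') (mem_nonZeroDivisors_of_ne_zero hπ'0) hπ'k
  -- the kernel
  obtain ⟨s, hsP, hs⟩ := exists_mul P π h1 h2
  have hsQ : C s ∈ Q.primeCompl := by
    intro h
    apply hsP
    rw [← hQ]
    exact h
  have hkerΦ : RingHom.ker Φ ≤ Ideal.span {π'} := by
    intro x hx
    obtain ⟨a, t, rfl⟩ := IsLocalization.exists_mk'_eq Q.primeCompl x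
    have h3 : Localization.localRingHom Q Q' φ hQQ' (IsLocalization.mk' _ a t) = 0 := hx
    rw [Localization.localRingHom_mk', IsLocalization.mk'_eq_zero_iff] at h3
    obtain ⟨m, hm⟩ := h3
    have h4 : φ a = 0 := by
      rcases mul_eq_zero.1 hm with h5 | h5
      · exfalso
        apply m.2
        rw [h5]
        exact Ideal.zero_mem _
      · exact h5
    have h5 : a ∈ P.map (C : O →+* MvPolynomial σ O) := by
      rw [← hker]
      exact h4
    have h6 : P.map (C : O →+* MvPolynomial σ O) ≤
        (Ideal.span {π'}).comap (algebraMap _ (Localization.AtPrime Q)) := by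
      rw [Ideal.map_le_iff_le_comap]
      intro y hy
      rw [Ideal.mem_comap, Ideal.mem_comap]
      obtain ⟨z, hz⟩ := Ideal.mem_span_singleton'.1 (hs y hy)
      have h7 : IsUnit (algebraMap (MvPolynomial σ O) (Localization.AtPrime Q) (C s)) :=
        IsLocalization.map_units _ (⟨C s, hsQ⟩ : Q.primeCompl)
      rw [← Ideal.unit_mul_mem_iff_mem _ h7, ← map_mul, ← map_mul, ← hz, map_mul, map_mul]
      exact Ideal.mul_mem_left _ _ (Ideal.mem_span_singleton_self _)
    have h7 := h6 h5
    rw [Ideal.mem_comap] at h7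
    rw [← Ideal.unit_mul_mem_iff_mem _ (IsLocalization.map_units (Localization.AtPrime Q) t),
      IsLocalization.mk'_spec']
    exact h7
  -- generators
  have hfg : (maximalIdeal (Localization.AtPrime Q')).FG := (isNoetherianRing_iff_ideal_fg _).1
    inferInstance _
  have hfin := Submodule.FG.finite_generators hfg
  have hnc := Submodule.FG.generators_ncard hfg
  have hspan := Submodule.span_generators (maximalIdeal (Localization.AtPrime Q'))
  set G := Submodule.generators (maximalIdeal (Localization.AtPrime Q')) with hG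
  have : Fintype G := hfin.fintype
  choose ℓ hℓ using hΦs
  let w : Option G → Localization.AtPrime Q := fun o => o.elim π' (fun g => ℓ g)
  have hmax : (maximalIdeal (Localization.AtPrime Q')).comap Φ =
      maximalIdeal (Localization.AtPrime Q) := by
    have : IsLocalHom Φ := Localization.isLocalHom_localRingHom Q Q' φ hQQ'
    exact IsLocalRing.maximalIdeal_comap Φ
  have hwspan : Ideal.span (Set.range w) = maximalIdeal (Localization.AtPrime Q) := by
    apply le_antisymm
    · rw [Ideal.span_le]
      rintro _ ⟨o, rfl⟩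
      rw [SetLike.mem_coe, ← hmax, Ideal.mem_comap]
      rcases o with _ | g
      · change Φ π' ∈ _
        rw [hπ'k]
        exact Ideal.zero_mem _
      · change Φ (ℓ g) ∈ _
        rw [hℓ]
        rw [← hspan]
        exact Submodule.subset_span g.2
    · intro x hx
      rw [← hmax, Ideal.mem_comap, ← hspan] at hx
      have h3 : Submodule.span (Localization.AtPrime Q') G =
          (Ideal.span (Set.range fun g : G => ℓ g)).map Φ := by
        rw [Ideal.map_span, ← Set.range_comp]
        have : (Φ ∘ fun g : G => ℓ g) = fun g : G => (g : Localization.AtPrime Q') := by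
          ext g
          exact hℓ g
        rw [this, Subtype.range_coe]
      rw [h3] at hx
      obtain ⟨y, hy, hyx⟩ := (Ideal.mem_map_iff_of_surjective Φ (fun b => ⟨ℓ b, hℓ b⟩)).1 hx
      have h4 : x - y ∈ RingHom.ker Φ := by
        rw [RingHom.mem_ker, map_sub, hyx, sub_self]
      have h5 : x - y ∈ Ideal.span (Set.range w) := by
        have h6 : Ideal.span {π'} ≤ Ideal.span (Set.range w) := by
          rw [Ideal.span_singleton_le_iff_mem]
          exact Ideal.subset_span ⟨none, rfl⟩
        exact h6 (hkerΦ h4)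
      have h6 : y ∈ Ideal.span (Set.range w) := by
        have h7 : Ideal.span (Set.range fun g : G => ℓ g) ≤ Ideal.span (Set.range w) := by
          apply Ideal.span_mono
          rintro _ ⟨g, rfl⟩
          exact ⟨some g, rfl⟩
        exact h7 hy
      have h7 := Ideal.add_mem _ h5 h6
      rwa [sub_add_cancel] at h7
  have hcard : ((Fintype.card (Option G) : ℕ) : WithBot ℕ∞) ≤
      ringKrullDim (Localization.AtPrime Q) := by
    refine le_trans (le_of_eq ?_) hdim
    rw [Fintype.card_option, ← hreg.spanFinrank_maximalIdeal, ← hnc, Set.ncard_eq_toFinset_card']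
    simp
  have hInd := ind_of_span hwspan hcard
  intro hcon
  have h8 := hInd.2 (fun o => o.elim 1 (fun _ => 0)) (by
    rw [Fintype.sum_option]
    simp only [Option.elim_none, Option.elim_some, one_mul, zero_mul, Finset.sum_const_zero,
      add_zero]
    exact hcon) none
  exact (Ideal.ne_top_iff_one _).1 (maximalIdeal.isMaximal _).ne_top h8

lemma pderiv_mem {O σ : Type} [CommRing O] (Q : Ideal (MvPolynomial σ O))
    (i : σ) (x : MvPolynomial σ O) (hx : x ∈ Q ^ 2) : pderiv i x ∈ Q := by
  rw [pow_two] at hx
  refine Submodule.mul_induction_on hx ?_ ?_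
  · intro a ha b hb
    rw [Derivation.leibniz]
    exact Ideal.add_mem _ (by rw [smul_eq_mul]; exact Ideal.mul_mem_right _ _ ha)
      (by rw [smul_eq_mul]; exact Ideal.mul_mem_right _ _ hb)
  · intro a b ha hb
    rw [map_add]
    exact Ideal.add_mem _ ha hb

theorem ind_gen {O σ : Type} [CommRing O] [IsDomain O] [IsDedekindDomain O] [Fintype σ]
    (Q : Ideal (MvPolynomial σ O)) [Q.IsPrime] (P : Ideal O) (hP : P.IsMaximal)
    (hQ : Q.comap (C : O →+* MvPolynomial σ O) = P) (π : O) (h1 : π ∈ P) (h2 : π ∉ P ^ 2)
    {α : Type} [Fintype α] (u : α → MvPolynomial σ O) (hu : ∀ a, u a ∈ Q)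
    (hJ : ∀ c : α → MvPolynomial σ O, (∀ i, ∑ a, c a * pderiv i (u a) ∈ Q) → ∀ a, c a ∈ Q) :
    Ind (fun a : Option α => algebraMap (MvPolynomial σ O) (Localization.AtPrime Q)
      (a.elim (C π) u)) := by
  classical
  have hπQ : (C π : MvPolynomial σ O) ∈ Q := by
    have : π ∈ Q.comap (C : O →+* MvPolynomial σ O) := by rw [hQ]; exact h1
    exact this
  set w : Option α → MvPolynomial σ O := fun a => a.elim (C π) u with hw
  have hwQ : ∀ a, w a ∈ Q := by
    rintro (_ | a)
    · exact hπQ
    · exact hu a
  have hmem : ∀ x, algebraMap (MvPolynomial σ O) (Localization.AtPrime Q) x ∈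
      maximalIdeal (Localization.AtPrime Q) ↔ x ∈ Q := fun x =>
    IsLocalization.AtPrime.to_map_mem_maximal_iff (Localization.AtPrime Q) Q x
  refine ⟨fun a => (hmem _).2 (hwQ a), ?_⟩
  intro c hc
  obtain ⟨s, hs⟩ := IsLocalization.exist_integer_multiples_of_finite Q.primeCompl c
  choose c' hc' using hs
  have h3 : algebraMap (MvPolynomial σ O) (Localization.AtPrime Q) (∑ a, c' a * w a) ∈
      maximalIdeal (Localization.AtPrime Q) ^ 2 := by
    rw [map_sum]
    have h4 : ∑ a, algebraMap (MvPolynomial σ O) (Localization.AtPrime Q) (c' a * w a) =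
        algebraMap (MvPolynomial σ O) (Localization.AtPrime Q) s *
          ∑ a, c a * algebraMap (MvPolynomial σ O) (Localization.AtPrime Q) (w a) := by
      rw [Finset.mul_sum]
      refine Finset.sum_congr rfl fun a _ => ?_
      rw [map_mul, hc', Algebra.smul_def, mul_assoc]
    rw [h4]
    exact Ideal.mul_mem_left _ _ hc
  have h4 : maximalIdeal (Localization.AtPrime Q) ^ 2 =
      (Q ^ 2).map (algebraMap (MvPolynomial σ O) (Localization.AtPrime Q)) := by
    rw [Ideal.map_pow, Localization.AtPrime.map_eq_maximalIdeal]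
  rw [h4, IsLocalization.algebraMap_mem_map_algebraMap_iff Q.primeCompl] at h3
  obtain ⟨m, hm, h5⟩ := h3
  -- the Jacobian criterion
  have h6 : ∀ a, m * c' (some a) ∈ Q := by
    apply hJ
    intro i
    have h7 := pderiv_mem Q i _ h5
    rw [Fintype.sum_option, mul_add, map_add, Finset.mul_sum, map_sum] at h7
    have h8 : pderiv i (m * (c' none * w none)) ∈ Q := by
      have e1 : m * (c' none * w none) = (m * c' none) * C π := by
        rw [hw]
        simp only [Option.elim_none]
        ring
      rw [e1, Derivation.leibniz, pderiv_C, smul_zero, zero_add, smul_eq_mul]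
      exact Ideal.mul_mem_right _ _ hπQ
    have h9 := (Ideal.add_mem_iff_right _ h8).1 h7
    have h10 : ∑ a, m * c' (some a) * pderiv i (u a) =
        ∑ a, pderiv i (m * (c' (some a) * w (some a))) -
          ∑ a, u a * pderiv i (m * c' (some a)) := by
      rw [← Finset.sum_sub_distrib]
      refine Finset.sum_congr rfl fun a _ => ?_
      have e1 : m * (c' (some a) * w (some a)) = (m * c' (some a)) * u a := by
        rw [hw]
        simp only [Option.elim_some]
        ring
      rw [e1, Derivation.leibniz, smul_eq_mul, smul_eq_mul]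
      ring
    rw [h10]
    exact Ideal.sub_mem _ h9 (Ideal.sum_mem _ fun a _ => Ideal.mul_mem_right _ _ (hu a))
  have h7 : ∀ a, c' (some a) ∈ Q := fun a =>
    ((Ideal.IsPrime.mem_or_mem inferInstance (h6 a)).resolve_left hm)
  have hback : ∀ a, c' a ∈ Q → c a ∈ maximalIdeal (Localization.AtPrime Q) := by
    intro a ha
    have h8 : algebraMap (MvPolynomial σ O) (Localization.AtPrime Q) s * c a ∈
        maximalIdeal (Localization.AtPrime Q) := by
      rw [← Algebra.smul_def, ← hc', hmem]
      exact ha
    exact (Ideal.unit_mul_mem_iff_mem _ (IsLocalization.map_units (Localization.AtPrime Q) s)).1 h8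
  rintro (_ | a)
  · by_contra hcon
    apply pi_notMem Q P hP hQ π h1 h2
    have h8 : m * (c' none * C π) ∈ Q ^ 2 := by
      rw [Fintype.sum_option, mul_add] at h5
      have h9 : m * ∑ a, c' (some a) * w (some a) ∈ Q ^ 2 := by
        refine Ideal.mul_mem_left _ _ (Ideal.sum_mem _ fun a _ => ?_)
        rw [pow_two]
        exact Ideal.mul_mem_mul (h7 a) (hwQ _)
      exact (Ideal.add_mem_iff_left _ h9).1 h5
    have h9 : algebraMap (MvPolynomial σ O) (Localization.AtPrime Q) (m * c' none) *
        algebraMap (MvPolynomial σ O) (Localization.AtPrime Q) (C π) ∈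
        maximalIdeal (Localization.AtPrime Q) ^ 2 := by
      rw [h4, ← map_mul]
      apply Ideal.mem_map_of_mem
      rw [mul_assoc]
      exact h8
    have h10 : IsUnit (algebraMap (MvPolynomial σ O) (Localization.AtPrime Q)
        (m * c' none)) := by
      by_contra hu
      have h11 : m * c' none ∈ Q := (hmem _).1 ((mem_maximalIdeal _).2 hu)
      exact hcon (hback none ((Ideal.IsPrime.mem_or_mem inferInstance h11).resolve_left hm))
    exact (Ideal.unit_mul_mem_iff_mem _ h10).1 h9
  · exact hback _ (h7 a)

end Pool.Agent.K3h35.ND
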