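import Pool.Agent.K3h75.ND.Stm
import Pool.Agent.K3h35.ND.IndGen

/-! Project ND of helper75 (MP_6a3dac_ag), brick PAR: parameters at a nondegenerate critical
point. -/

set_option autoImplicit false

namespace Pool.Agent.K3h35.ND

open MvPolynomial IsLocalRing Pool.Agent.W418.LU2 Pool.Agent.K3h75.ND Pool.Agent.H918R2.Quad

section

variable {R σ : Type} [CommRing R] [IsDomain R] [IsDiscreteValuationRing R] [Fintype σ]
  [DecidableEq σ]

omit [Fintype σ] [DecidableEq σ] in
theorem comap_eq {π : R} (hπ : Irreducible π) (Q : Ideal (MvPolynomial σ R)) [Q.IsPrime]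
    (hQ : C π ∈ Q) : Q.comap (C : R →+* MvPolynomial σ R) = maximalIdeal R := by
  have h1 : (maximalIdeal R) = Ideal.span {π} := hπ.maximalIdeal_eq
  refine ((maximalIdeal.isMaximal R).eq_of_le (Ideal.IsPrime.ne_top inferInstance) ?_).symm
  rw [h1, Ideal.span_singleton_le_iff_mem]
  exact hQ

theorem not_sq {π : R} (hπ : Irreducible π) : π ∉ maximalIdeal R ^ 2 := by
  rw [hπ.maximalIdeal_eq, Ideal.span_singleton_pow, Ideal.mem_span_singleton]
  intro h
  obtain ⟨c, hc⟩ := h
  have h1 : π * (1 - π * c) = 0 := by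
    rw [mul_sub, mul_one, ← mul_assoc, ← pow_two, ← hc, sub_self]
  rcases mul_eq_zero.1 h1 with h2 | h2
  · exact hπ.ne_zero h2
  · exact hπ.not_isUnit (IsUnit.of_mul_eq_one c (sub_eq_zero.1 h2).symm)

omit [IsDomain R] [IsDiscreteValuationRing R] in
theorem jac {f : MvPolynomial σ R} {Q : Ideal (MvPolynomial σ R)} [Q.IsPrime]
    (hdet : (hess f).det ∉ Q) (c : σ → MvPolynomial σ R)
    (hc : ∀ i, ∑ a, c a * pderiv i (pderiv a f) ∈ Q) (a : σ) : c a ∈ Q := by
  have h1 : (hess f).adjugate.mulVec ((hess f).mulVec c) a = (hess f).det * c a := by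
    rw [Matrix.mulVec_mulVec, Matrix.adjugate_mul, Matrix.smul_mulVec, Matrix.one_mulVec,
      Pi.smul_apply, smul_eq_mul]
  have h2 : ∀ i, (hess f).mulVec c i ∈ Q := by
    intro i
    have h3 : (hess f).mulVec c i = ∑ a, c a * pderiv i (pderiv a f) := by
      unfold Matrix.mulVec dotProduct
      exact Finset.sum_congr rfl fun j _ => mul_comm _ _
    rw [h3]
    exact hc i
  have h4 : (hess f).adjugate.mulVec ((hess f).mulVec c) a ∈ Q := by
    unfold Matrix.mulVec dotProduct
    exact Ideal.sum_mem _ fun j _ => Ideal.mul_mem_left _ _ (h2 j)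
  rw [h1] at h4
  exact (Ideal.IsPrime.mem_or_mem inferInstance h4).resolve_left hdet

theorem t_PAR : S_PAR := by
  intro R σ _ _ _ _ _ π hπ f Q _ hπQ hfQ hdet
  set B := Localization.AtPrime Q with hB
  set al := algebraMap (MvPolynomial σ R) B with hal
  set z : Option σ → MvPolynomial σ R := fun a => a.elim (C π) fun j => pderiv j f with hz
  have hInd : Ind (fun a : Option σ => al (z a)) :=
    ind_gen Q (maximalIdeal R) (maximalIdeal.isMaximal R) (comap_eq hπ Q hπQ) π
      (by rw [hπ.maximalIdeal_eq]; exact Ideal.mem_span_singleton_self π) (not_sq hπ)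
      (fun j => pderiv j f) hfQ (fun c hc => jac hdet c hc)
  have hmem : ∀ x, al x ∈ maximalIdeal B ↔ x ∈ Q := fun x =>
    IsLocalization.AtPrime.to_map_mem_maximal_iff (Localization.AtPrime Q) Q x
  -- dimension
  have hdimW : ringKrullDim (MvPolynomial σ R) = ((1 + Fintype.card σ : ℕ) : WithBot ℕ∞) := by
    rw [MvPolynomial.ringKrullDim_of_isNoetherianRing, Nat.card_eq_fintype_card,
      IsDiscreteValuationRing.ringKrullDim_eq_one]
    push_cast
    rfl
  have hdimle : ringKrullDim B ≤ ((1 + Fintype.card σ : ℕ) : WithBot ℕ∞) := by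
    rw [← hdimW, IsLocalization.AtPrime.ringKrullDim_eq_height Q B]
    exact Ideal.height_le_ringKrullDim_of_ne_top Ideal.IsPrime.ne_top'
  obtain ⟨m, w, hw, hd⟩ := hInd.extend
  have hm : m = 0 := by
    rw [hd, Fintype.card_option] at hdimle
    have : Fintype.card σ + 1 + m ≤ 1 + Fintype.card σ := by exact_mod_cast hdimle
    omega
  subst hm
  have hspan : Ideal.span (Set.range fun a : Option σ => al (z a)) = maximalIdeal B := by
    rw [← hw]
    congr 1
    ext x
    constructor
    · rintro ⟨a, rfl⟩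
      exact ⟨Sum.inl a, rfl⟩
    · rintro ⟨a | a, rfl⟩
      · exact ⟨a, rfl⟩
      · exact a.elim0
  have hrange : Set.range z = insert (C π) (Set.range fun j => pderiv j f) := by
    ext x
    constructor
    · rintro ⟨_ | j, rfl⟩
      · exact Or.inl rfl
      · exact Or.inr ⟨j, rfl⟩
    · rintro (rfl | ⟨j, rfl⟩)
      · exact ⟨none, rfl⟩
      · exact ⟨some j, rfl⟩
  have hmap : (Ideal.span (insert (C π) (Set.range fun j => pderiv j f))).map al =
      maximalIdeal B := by
    rw [← hrange, Ideal.map_span, ← Set.range_comp]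
    exact hspan
  refine ⟨fun x hx => ?_, ?_, ?_⟩
  · apply mem_of_map_mem Q
    have h1 := (hmem x).2 hx
    rw [← hmap] at h1
    exact h1
  · intro m c hc hcm
    set J : Ideal (MvPolynomial σ R) := Ideal.span (Set.range fun j => pderiv j f) with hJ
    have h1 : al (C π) ^ m ∈ J.map al := by
      have h2 := Ideal.mem_map_of_mem al hcm
      have h3 : IsUnit (al c) := IsLocalization.map_units B (⟨c, hc⟩ : Q.primeCompl)
      rw [map_mul] at h2
      have h4 := (Ideal.unit_mul_mem_iff_mem _ h3).1 h2
      rwa [C_pow, map_pow] at h4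
    have hmin : maximalIdeal B ∈ (J.map al).minimalPrimes := by
      refine ⟨⟨inferInstance, ?_⟩, fun P hP _ => ?_⟩
      · rw [hJ, Ideal.map_le_iff_le_comap, Ideal.span_le]
        rintro _ ⟨j, rfl⟩
        exact (hmem _).2 (hfQ j)
      · have hPp : P.IsPrime := hP.1
        rw [← hmap, Ideal.map_le_iff_le_comap, Ideal.span_le]
        rintro _ (rfl | ⟨j, rfl⟩)
        · exact hPp.mem_of_pow_mem m (hP.2 h1)
        · exact hP.2 (Ideal.mem_map_of_mem al (Ideal.subset_span ⟨j, rfl⟩))
    have h5 := Ideal.height_le_spanRank_toENat_of_mem_minimalPrimes _ _ hmin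
    have h6 : Cardinal.toENat (Submodule.spanRank (J.map al)) ≤ ((Fintype.card σ : ℕ) : ℕ∞) := by
      have h7 : Submodule.spanRank (J.map al) ≤ Cardinal.mk (Set.range fun j => al (pderiv j f)) := by
        have h8 : J.map al = Ideal.span (Set.range fun j => al (pderiv j f)) := by
          rw [hJ, Ideal.map_span, ← Set.range_comp]
          rfl
        rw [h8]
        exact Submodule.spanRank_span_le_card _
      have h8 : Cardinal.mk (Set.range fun j => al (pderiv j f)) ≤ Cardinal.mk σ :=
        Cardinal.mk_range_le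
      rw [Cardinal.toENat_le_natCast, ← Cardinal.mk_fintype]
      exact h7.trans h8
    have h7 : ((maximalIdeal B).height : WithBot ℕ∞) = ringKrullDim B :=
      IsLocalRing.maximalIdeal_height_eq_ringKrullDim
    rw [hd, Fintype.card_option] at h7
    have h8 : (maximalIdeal B).height = ((Fintype.card σ + 1 + 0 : ℕ) : ℕ∞) := by
      exact_mod_cast h7
    rw [h8] at h5
    have h9 := h5.trans h6
    have h10 : Fintype.card σ + 1 + 0 ≤ Fintype.card σ := by exact_mod_cast h9
    omega
  · intro a a₀ h
    have h1 := hInd.2 (fun o => al (o.elim a₀ a)) (by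
      rw [Fintype.sum_option]
      have h2 : maximalIdeal B ^ 2 = (Q ^ 2).map al := by
        rw [Ideal.map_pow, hal, Localization.AtPrime.map_eq_maximalIdeal]
      rw [h2]
      have h3 := Ideal.mem_map_of_mem al h
      rw [map_add, map_sum, map_mul] at h3
      simp only [map_mul] at h3
      exact h3)
    exact ⟨(hmem _).1 (h1 none), fun j => (hmem _).1 (h1 (some j))⟩

end

end Pool.Agent.K3h35.ND
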